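import Pool.Agent.R161.GR.Defs

/-!
# GR-HW: products of the `u_j` are highest weight vectors (MP_57d9fd_an)

The map `F ↦ F(P) + ε D F`, `D` the complexified directional derivative, is a ring homomorphism
from the smooth functions to the dual numbers; this turns the derivative of a determinant into a
determinant over the dual numbers.
-/

open scoped ContDiff Matrix Matrix.Norms.Elementwise

namespace Pool.Agent.R198.GR
open Pool.Agent.R161.GR

variable {n : ℕ}

/-- the ring of smooth functions of a matrix -/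
def SR (n : ℕ) : Subring (Mt n → ℂ) where
  carrier := {F | ContDiff ℝ ∞ F}
  mul_mem' {a b} ha hb := by
    have ha' : ContDiff ℝ ∞ a := ha
    have hb' : ContDiff ℝ ∞ b := hb
    exact ha'.mul hb'
  one_mem' := by
    have h : ContDiff ℝ ∞ (fun _ : Mt n => (1 : ℂ)) := contDiff_const
    exact h
  add_mem' {a b} ha hb := by
    have ha' : ContDiff ℝ ∞ a := ha
    have hb' : ContDiff ℝ ∞ b := hb
    exact ha'.add hb'
  zero_mem' := by
    have h : ContDiff ℝ ∞ (fun _ : Mt n => (0 : ℂ)) := contDiff_const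
    exact h
  neg_mem' {a} ha := by
    have ha' : ContDiff ℝ ∞ a := ha
    exact ha'.neg

/-- the complexified directional derivative -/
noncomputable def Dd (P C₁ C₂ : Mt n) (F : Mt n → ℂ) : ℂ :=
  fderiv ℝ F P C₁ + Complex.I * fderiv ℝ F P C₂

lemma SR.cd (F : SR n) : ContDiff ℝ ∞ F.1 := F.2

lemma SR.diff (F : SR n) (P : Mt n) : DifferentiableAt ℝ F.1 P :=
  ((SR.cd F).differentiable (by simp)).differentiableAt

/-- evaluation and derivative as a ring homomorphism to the dual numbers -/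
noncomputable def Φ (P C₁ C₂ : Mt n) : SR n →+* DualNumber ℂ where
  toFun F := TrivSqZeroExt.inl (F.1 P) + TrivSqZeroExt.inr (Dd P C₁ C₂ F.1)
  map_one' := by
    have h : ((1 : SR n) : Mt n → ℂ) = fun _ => 1 := rfl
    simp only [Dd, h]
    rw [fderiv_fun_const]
    simp
  map_zero' := by
    have h : ((0 : SR n) : Mt n → ℂ) = fun _ => 0 := rfl
    simp only [Dd, h]
    rw [fderiv_fun_const]
    simp
  map_add' F G := by
    have h : ((F + G : SR n) : Mt n → ℂ) = fun Q => F.1 Q + G.1 Q := rfl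
    simp only [Dd, h]
    have h1 : fderiv ℝ (fun Q => F.1 Q + G.1 Q) P = fderiv ℝ F.1 P + fderiv ℝ G.1 P :=
      fderiv_fun_add (SR.diff F P) (SR.diff G P)
    rw [h1]
    ext
    · simp
    · simp
      ring
  map_mul' F G := by
    have h : ((F * G : SR n) : Mt n → ℂ) = fun Q => F.1 Q * G.1 Q := rfl
    simp only [Dd, h]
    have h1 : fderiv ℝ (fun Q => F.1 Q * G.1 Q) P
        = F.1 P • fderiv ℝ G.1 P + G.1 P • fderiv ℝ F.1 P :=
      fderiv_fun_mul (SR.diff F P) (SR.diff G P)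
    rw [h1]
    ext
    · simp
    · simp
      ring

lemma Φ_fst (P C₁ C₂ : Mt n) (F : SR n) : (Φ P C₁ C₂ F).fst = F.1 P := by
  simp [Φ]

lemma Φ_snd (P C₁ C₂ : Mt n) (F : SR n) : (Φ P C₁ C₂ F).snd = Dd P C₁ C₂ F.1 := by
  simp [Φ]

/-- `1 + ε t` -/
noncomputable def E (t : ℂ) : DualNumber ℂ := 1 + TrivSqZeroExt.inr t

lemma E_mul (s t : ℂ) : E s * E t = E (s + t) := by
  unfold E
  ext
  · simp
  · simp
    ring

lemma E_zero : E 0 = 1 := by simp [E]

lemma E_pow (t : ℂ) (k : ℕ) : E t ^ k = E (k * t) := by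
  induction k with
  | zero => simp [E_zero]
  | succ k ih =>
    rw [pow_succ, ih, E_mul]
    push_cast
    ring_nf

lemma E_prod {ι : Type*} (s : Finset ι) (t : ι → ℂ) : ∏ i ∈ s, E (t i) = E (∑ i ∈ s, t i) := by
  classical
  induction s using Finset.induction_on with
  | empty => simp [E_zero]
  | insert a s ha ih => rw [Finset.prod_insert ha, Finset.sum_insert ha, ih, E_mul]

/-- the bilinear entry as a linear functional of the matrix -/
noncomputable def Lf (v w : Fin n → ℂ) : Mt n →ₗ[ℝ] ℂ where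
  toFun P := ∑ p, ∑ q, v p * (P p q : ℂ) * w q
  map_add' P Q := by
    simp only [Matrix.add_apply, Complex.ofReal_add, mul_add, add_mul, Finset.sum_add_distrib]
  map_smul' c P := by
    simp only [Matrix.smul_apply, smul_eq_mul, Complex.ofReal_mul, RingHom.id_apply,
      Complex.real_smul, Finset.mul_sum]
    refine Finset.sum_congr rfl fun p _ => Finset.sum_congr rfl fun q _ => ?_
    ring

lemma Lf_contDiff (v w : Fin n → ℂ) : ContDiff ℝ ∞ (fun P : Mt n => Lf v w P) :=
  (LinearMap.toContinuousLinearMap (Lf v w)).contDiff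

lemma Dd_Lf (P C₁ C₂ : Mt n) (v w : Fin n → ℂ) :
    Dd P C₁ C₂ (fun P : Mt n => Lf v w P) = Lf v w C₁ + Complex.I * Lf v w C₂ := by
  unfold Dd
  have h : fderiv ℝ (fun P : Mt n => Lf v w P) P = LinearMap.toContinuousLinearMap (Lf v w) :=
    (LinearMap.toContinuousLinearMap (Lf v w)).fderiv
  rw [h]
  rfl

/-- the entry as a smooth function -/
noncomputable def ent (v w : Fin n → ℂ) : SR n := ⟨fun P : Mt n => Lf v w P, Lf_contDiff v w⟩

lemma Lf_eq {r : ℕ} (Z : Matrix (Fin n) (Fin r) ℂ) (C : Mt n) (a b : Fin r) :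
    Lf (fun p => Z p a) (fun p => Z p b) C
      = (Zᵀ * C.map (fun t : ℝ => (t : ℂ)) * Z) a b := by
  simp only [Lf, LinearMap.coe_mk, AddHom.coe_mk, Matrix.mul_apply, Matrix.transpose_apply,
    Matrix.map_apply, Finset.sum_mul]
  rw [Finset.sum_comm]

lemma comm_eq {r : ℕ} (Z : Matrix (Fin n) (Fin r) ℂ) (A B P : Mt n) (hA : Aᵀ = -A) (hB : Bᵀ = -B)
    (U : Matrix (Fin r) (Fin r) ℂ)
    (hU : (A.map (fun t : ℝ => (t : ℂ)) + Complex.I • B.map (fun t : ℝ => (t : ℂ))) * Z = Z * U) :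
    Zᵀ * (P * A - A * P).map (fun t : ℝ => (t : ℂ)) * Z
      + Complex.I • (Zᵀ * (P * B - B * P).map (fun t : ℝ => (t : ℂ)) * Z)
      = (Zᵀ * P.map (fun t : ℝ => (t : ℂ)) * Z) * U
        + Uᵀ * (Zᵀ * P.map (fun t : ℝ => (t : ℂ)) * Z) := by
  set X : Matrix (Fin n) (Fin n) ℂ :=
    A.map (fun t : ℝ => (t : ℂ)) + Complex.I • B.map (fun t : ℝ => (t : ℂ)) with hX
  have hm : ∀ C D : Mt n, (C * D - D * C).map (fun t : ℝ => (t : ℂ))
      = C.map (fun t : ℝ => (t : ℂ)) * D.map (fun t : ℝ => (t : ℂ))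
        - D.map (fun t : ℝ => (t : ℂ)) * C.map (fun t : ℝ => (t : ℂ)) := by
    intro C D
    ext i j
    simp [Matrix.mul_apply]
  have hXt : Xᵀ = -X := by
    ext i j
    have h1 : A j i = -A i j := congrFun (congrFun hA i) j
    have h2 : B j i = -B i j := congrFun (congrFun hB i) j
    simp only [hX, Matrix.transpose_apply, Matrix.add_apply, Matrix.smul_apply, Matrix.map_apply,
      Matrix.neg_apply, h1, h2, Complex.ofReal_neg, smul_eq_mul]
    ring
  have h2 : Zᵀ * X = -(Uᵀ * Zᵀ) := by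
    have := congrArg Matrix.transpose hU
    rw [Matrix.transpose_mul, Matrix.transpose_mul, hXt] at this
    rw [← this]
    simp
  set Q : Matrix (Fin n) (Fin n) ℂ := P.map (fun t : ℝ => (t : ℂ)) with hQ
  calc Zᵀ * (P * A - A * P).map (fun t : ℝ => (t : ℂ)) * Z
      + Complex.I • (Zᵀ * (P * B - B * P).map (fun t : ℝ => (t : ℂ)) * Z)
      = Zᵀ * Q * (X * Z) - (Zᵀ * X) * Q * Z := by
        rw [hm, hm, hX]
        simp only [Matrix.mul_add, Matrix.add_mul, Matrix.mul_sub, Matrix.sub_mul, Matrix.smul_mul,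
          Matrix.mul_smul, Matrix.mul_assoc, smul_sub]
        abel
    _ = _ := by
        rw [hU, h2]
        simp only [Matrix.neg_mul, Matrix.mul_assoc, sub_neg_eq_add]

/-! ### matrices over the dual numbers -/

section dual

set_option linter.unusedSectionVars false

variable {J : Type} [Fintype J] [DecidableEq J]

lemma inl_mul_inr' (M N : Matrix J J ℂ) :
    M.map (TrivSqZeroExt.inl : ℂ → DualNumber ℂ) * N.map (TrivSqZeroExt.inr : ℂ → DualNumber ℂ)
      = (M * N).map (TrivSqZeroExt.inr : ℂ → DualNumber ℂ) := by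
  refine Matrix.ext fun a b => ?_
  simp only [Matrix.mul_apply, Matrix.map_apply, TrivSqZeroExt.inl_mul_inr,
    TrivSqZeroExt.inr_sum, smul_eq_mul]

lemma inr_mul_inl' (M N : Matrix J J ℂ) :
    M.map (TrivSqZeroExt.inr : ℂ → DualNumber ℂ) * N.map (TrivSqZeroExt.inl : ℂ → DualNumber ℂ)
      = (M * N).map (TrivSqZeroExt.inr : ℂ → DualNumber ℂ) := by
  refine Matrix.ext fun a b => ?_
  simp only [Matrix.mul_apply, Matrix.map_apply, TrivSqZeroExt.inr_mul_inl,
    TrivSqZeroExt.inr_sum, op_smul_eq_smul, smul_eq_mul]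
  refine Finset.sum_congr rfl fun j _ => ?_
  rw [mul_comm]

lemma inr_mul_inr' (M N : Matrix J J ℂ) :
    M.map (TrivSqZeroExt.inr : ℂ → DualNumber ℂ) * N.map (TrivSqZeroExt.inr : ℂ → DualNumber ℂ)
      = 0 := by
  refine Matrix.ext fun a b => ?_
  simp only [Matrix.mul_apply, Matrix.map_apply, TrivSqZeroExt.inr_mul_inr,
    Finset.sum_const_zero, Matrix.zero_apply]

lemma factor (N V : Matrix J J ℂ) :
    N.map (TrivSqZeroExt.inl : ℂ → DualNumber ℂ)
      + (N * V + Vᵀ * N).map (TrivSqZeroExt.inr : ℂ → DualNumber ℂ)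
    = (1 + V.map (TrivSqZeroExt.inr : ℂ → DualNumber ℂ))ᵀ
      * N.map (TrivSqZeroExt.inl : ℂ → DualNumber ℂ)
      * (1 + V.map (TrivSqZeroExt.inr : ℂ → DualNumber ℂ)) := by
  have h1 : (V.map (TrivSqZeroExt.inr : ℂ → DualNumber ℂ))ᵀ
      = (Vᵀ).map (TrivSqZeroExt.inr : ℂ → DualNumber ℂ) := rfl
  have h2 : (N * V + Vᵀ * N).map (TrivSqZeroExt.inr : ℂ → DualNumber ℂ)
      = (N * V).map (TrivSqZeroExt.inr : ℂ → DualNumber ℂ)
        + (Vᵀ * N).map (TrivSqZeroExt.inr : ℂ → DualNumber ℂ) := by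
    ext a b <;> simp
  rw [Matrix.transpose_add, Matrix.transpose_one, h1, h2, Matrix.add_mul, Matrix.one_mul,
    inr_mul_inl', Matrix.mul_add, Matrix.mul_one, Matrix.add_mul, inl_mul_inr', inr_mul_inr']
  abel

lemma det_one_add [LinearOrder J] (V : Matrix J J ℂ) (hV : ∀ a b, b < a → V a b = 0) :
    (1 + V.map (TrivSqZeroExt.inr : ℂ → DualNumber ℂ)).det = E (∑ a, V a a) := by
  rw [Matrix.det_of_isUpperTriangular, ← E_prod]
  · refine Finset.prod_congr rfl fun a _ => ?_
    simp [E]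
  · intro a b hab
    have hab' : b < a := hab
    simp [Matrix.one_apply_ne hab'.ne', hV a b hab']

end dual

/-! ### the functions `u_j` -/

section main

variable {κ : ℕ}

/-- the matrix of smooth functions with determinant `u_j` -/
noncomputable def Mj (h : κ ≤ n / 2) (x y : Fin (n / 2) → Fin n → ℝ) (j : Fin κ) :
    Matrix {a : Fin κ // a ≤ j} {a : Fin κ // a ≤ j} (SR n) :=
  Matrix.of fun a b => ent (fun p => Zm x y p (Fin.castLE h a.1))
    (fun p => Zm x y p (Fin.castLE h b.1))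

lemma Mj_det (h : κ ≤ n / 2) (x y : Fin (n / 2) → Fin n → ℝ) (j : Fin κ) (P : Mt n) :
    (Mj h x y j).det.1 P = ud (fun a => x (Fin.castLE h a)) (fun a => y (Fin.castLE h a))
      (P.map (fun t : ℝ => (t : ℂ))) j := by
  have h1 : (Mj h x y j).det.1 P
      = ((Pi.evalRingHom (fun _ : Mt n => ℂ) P).comp (SR n).subtype) (Mj h x y j).det := rfl
  rw [h1, RingHom.map_det]
  rfl

lemma sum_e (h : κ ≤ n / 2) (j : Fin κ) (f : Fin (n / 2) → ℂ)
    (hf : ∀ c : Fin (n / 2), j.1 < c.1 → f c = 0) :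
    ∑ c : {a : Fin κ // a ≤ j}, f (Fin.castLE h c.1) = ∑ c, f c := by
  refine Fintype.sum_of_injective (fun c : {a : Fin κ // a ≤ j} => Fin.castLE h c.1) ?_ _ _ ?_ ?_
  · intro a b hab
    exact Subtype.ext (Fin.castLE_injective h hab)
  · intro c hc
    apply hf
    by_contra hlt
    push Not at hlt
    exact hc ⟨⟨⟨c.1, by omega⟩, Fin.mk_le_of_le_val hlt⟩, by ext; simp⟩
  · intro c
    rfl

lemma Φ_det (h : κ ≤ n / 2) (x y : Fin (n / 2) → Fin n → ℝ) (j : Fin κ) (A B P : Mt n)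
    (hA : Aᵀ = -A) (hB : Bᵀ = -B) (U : Matrix (Fin (n / 2)) (Fin (n / 2)) ℂ)
    (hUt : ∀ a b, b < a → U a b = 0)
    (hU : (A.map (fun t : ℝ => (t : ℂ)) + Complex.I • B.map (fun t : ℝ => (t : ℂ))) * Zm x y
      = Zm x y * U) :
    Φ P (P * A - A * P) (P * B - B * P) (Mj h x y j).det
      = E (2 * ∑ a : {a : Fin κ // a ≤ j}, U (Fin.castLE h a.1) (Fin.castLE h a.1))
        * TrivSqZeroExt.inl ((Mj h x y j).det.1 P) := by
  set Z := Zm x y with hZ
  set M : Matrix (Fin (n / 2)) (Fin (n / 2)) ℂ := Zᵀ * P.map (fun t : ℝ => (t : ℂ)) * Z with hM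
  let e : {a : Fin κ // a ≤ j} → Fin (n / 2) := fun a => Fin.castLE h a.1
  set N : Matrix {a : Fin κ // a ≤ j} {a : Fin κ // a ≤ j} ℂ := M.submatrix e e with hN
  set V : Matrix {a : Fin κ // a ≤ j} {a : Fin κ // a ≤ j} ℂ := U.submatrix e e with hV
  have hNd : N.det = (Mj h x y j).det.1 P := by
    have h1 : (Mj h x y j).det.1 P
      = ((Pi.evalRingHom (fun _ : Mt n => ℂ) P).comp (SR n).subtype) (Mj h x y j).det := rfl
    rw [h1, RingHom.map_det]
    congr 1
    refine Matrix.ext fun a b => ?_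
    exact (Lf_eq Z P (e a) (e b)).symm
  have hVt : ∀ a b, b < a → V a b = 0 := fun a b hab => hUt _ _ (by
    have : b.1 < a.1 := hab
    exact this)
  have hmat : (Φ P (P * A - A * P) (P * B - B * P)).mapMatrix (Mj h x y j)
      = N.map (TrivSqZeroExt.inl : ℂ → DualNumber ℂ)
        + (N * V + Vᵀ * N).map (TrivSqZeroExt.inr : ℂ → DualNumber ℂ) := by
    refine Matrix.ext fun a b => ?_
    have hfst : (Φ P (P * A - A * P) (P * B - B * P) (Mj h x y j a b)).fst = N a b := by
      rw [Φ_fst]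
      exact Lf_eq Z P (e a) (e b)
    have hsnd : (Φ P (P * A - A * P) (P * B - B * P) (Mj h x y j a b)).snd
        = (N * V + Vᵀ * N) a b := by
      rw [Φ_snd]
      have h1 : Dd P (P * A - A * P) (P * B - B * P) (Mj h x y j a b).1
          = Lf (fun p => Z p (e a)) (fun p => Z p (e b)) (P * A - A * P)
            + Complex.I * Lf (fun p => Z p (e a)) (fun p => Z p (e b)) (P * B - B * P) :=
        Dd_Lf P _ _ _ _
      have h2 := congrFun (congrFun (comm_eq Z A B P hA hB U hU) (e a)) (e b)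
      rw [h1, Lf_eq, Lf_eq]
      rw [Matrix.add_apply, Matrix.smul_apply, smul_eq_mul, Matrix.add_apply] at h2
      rw [h2, Matrix.add_apply]
      congr 1
      · rw [Matrix.mul_apply, Matrix.mul_apply]
        refine (sum_e h j (fun c => M (e a) c * U c (e b)) ?_).symm
        intro c hc
        have : e b < c := by
          have h3 : b.1.1 ≤ j.1 := b.2
          have h4 : (e b).1 = b.1.1 := rfl
          exact Fin.lt_def.2 (by omega)
        simp [hUt _ _ this]
      · rw [Matrix.mul_apply, Matrix.mul_apply]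
        refine (sum_e h j (fun c => Uᵀ (e a) c * M c (e b)) ?_).symm
        intro c hc
        have : e a < c := by
          have h3 : a.1.1 ≤ j.1 := a.2
          have h4 : (e a).1 = a.1.1 := rfl
          exact Fin.lt_def.2 (by omega)
        simp [Matrix.transpose_apply, hUt _ _ this]
    refine TrivSqZeroExt.ext ?_ ?_
    · simpa using hfst
    · simpa using hsnd
  rw [RingHom.map_det, hmat, factor, Matrix.det_mul, Matrix.det_mul, Matrix.det_transpose,
    det_one_add V hVt]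
  have hdet : (N.map (TrivSqZeroExt.inl : ℂ → DualNumber ℂ)).det
      = TrivSqZeroExt.inl ((Mj h x y j).det.1 P) := by
    rw [← hNd]
    exact (RingHom.map_det (TrivSqZeroExt.inlHom ℂ ℂ) N).symm
  rw [hdet, mul_right_comm, E_mul, ← two_mul]
  rfl

/-- the product as a smooth function -/
noncomputable def Hf (h : κ ≤ n / 2) (x y : Fin (n / 2) → Fin n → ℝ) (ν : Fin κ → ℕ) : SR n :=
  ∏ j, (Mj h x y j).det ^ ν j

lemma Hf_apply (h : κ ≤ n / 2) (x y : Fin (n / 2) → Fin n → ℝ) (ν : Fin κ → ℕ) (P : Mt n) :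
    (Hf h x y ν).1 P = ∏ j, ud (fun a => x (Fin.castLE h a))
      (fun a => y (Fin.castLE h a)) (P.map (fun t : ℝ => (t : ℂ))) j ^ ν j := by
  have h1 : (Hf h x y ν).1 P
      = ((Pi.evalRingHom (fun _ : Mt n => ℂ) P).comp (SR n).subtype) (Hf h x y ν) := rfl
  rw [h1, Hf, map_prod]
  refine Finset.prod_congr rfl fun j _ => ?_
  rw [map_pow, ← Mj_det]
  rfl

lemma sum_id (h : κ ≤ n / 2) (ν : Fin κ → ℕ) (u : Fin (n / 2) → ℂ) :
    ∑ j, (ν j : ℂ) * (2 * ∑ a : {a : Fin κ // a ≤ j}, u (Fin.castLE h a.1))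
      = ∑ a, (ex (n / 2) (lw ν) a : ℂ) * u a := by
  have h1 : ∑ a : Fin κ, ((lw ν a : ℕ) : ℂ) * u (Fin.castLE h a)
      = ∑ a, (ex (n / 2) (lw ν) a : ℂ) * u a := by
    refine Fintype.sum_of_injective (Fin.castLE h) (Fin.castLE_injective h) _ _ ?_ ?_
    · intro c hc
      have : ¬ c.1 < κ := fun hlt => hc ⟨⟨c.1, hlt⟩, by ext; simp⟩
      simp [ex, this]
    · intro a
      simp [ex]
  rw [← h1]
  have h2 : ∀ j : Fin κ, ∑ a : {a : Fin κ // a ≤ j}, u (Fin.castLE h a.1)
      = ∑ a : Fin κ, if a ≤ j then u (Fin.castLE h a) else 0 := by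
    intro j
    rw [← Finset.sum_filter]
    exact (Finset.sum_subtype (Finset.univ.filter (fun a : Fin κ => a ≤ j)) (by simp)
      (fun a => u (Fin.castLE h a))).symm
  simp only [h2, lw, Finset.sum_filter, Nat.cast_mul, Nat.cast_sum, Nat.cast_ofNat,
    Finset.mul_sum, Finset.sum_mul]
  rw [Finset.sum_comm]
  refine Finset.sum_congr rfl fun a _ => Finset.sum_congr rfl fun j _ => ?_
  split_ifs
  · ring
  · simp

/-- GR-HW. -/
theorem s_hw : S_hw := by
  intro n k κ h x y _ ν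
  have hH : (fun P : Mt n => ∏ j, ud (fun a => x (Fin.castLE h a))
      (fun a => y (Fin.castLE h a)) (P.map (fun t : ℝ => (t : ℂ))) j ^ ν j)
      = (Hf h x y ν).1 := by
    funext P
    exact (Hf_apply h x y ν P).symm
  rw [hH]
  refine ⟨SR.cd _, ?_⟩
  intro A B hA hB U hUt hU P _
  have h1 : fderiv ℝ (Hf h x y ν).1 P (P * A - A * P)
      + Complex.I * fderiv ℝ (Hf h x y ν).1 P (P * B - B * P)
      = (Φ P (P * A - A * P) (P * B - B * P) (Hf h x y ν)).snd := (Φ_snd _ _ _ _).symm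
  rw [h1]
  have h2 : Φ P (P * A - A * P) (P * B - B * P) (Hf h x y ν)
      = E (∑ a, (ex (n / 2) (lw ν) a : ℂ) * U a a)
        * TrivSqZeroExt.inl ((Hf h x y ν).1 P) := by
    rw [Hf, map_prod]
    simp only [map_pow, Φ_det h x y _ A B P hA hB U hUt hU, mul_pow, E_pow]
    rw [Finset.prod_mul_distrib, E_prod, sum_id h ν (fun a => U a a)]
    congr 1
    have h3 : (∏ j, (Mj h x y j).det ^ ν j : SR n).1 P
        = ∏ j, ((Mj h x y j).det.1 P) ^ ν j := by
      have h4 : (∏ j, (Mj h x y j).det ^ ν j : SR n).1 P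
        = ((Pi.evalRingHom (fun _ : Mt n => ℂ) P).comp (SR n).subtype)
          (∏ j, (Mj h x y j).det ^ ν j) := rfl
      rw [h4, map_prod]
      refine Finset.prod_congr rfl fun j _ => ?_
      rw [map_pow]
      rfl
    rw [h3]
    have h5 := map_prod (TrivSqZeroExt.inlHom ℂ ℂ) (fun j => ((Mj h x y j).det.1 P) ^ ν j)
      Finset.univ
    simp only [map_pow] at h5
    exact h5.symm
  rw [h2]
  simp [E]

end main

end Pool.Agent.R198.GR
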